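import Pool.Agent.W16.FX.Defs

/-!
FX-RUN (helper74): a bounded number of solutions on a nondegenerate quartic curve.
-/

set_option autoImplicit false

namespace Pool.Agent.W74.FX

open Finset Pool.Agent.W16.FX Polynomial

/-- the quartic form without middle term -/
def HH (c4 c3 c1 c0 x y : ℝ) : ℝ := c4 * x ^ 4 + c3 * x ^ 3 * y + c1 * x * y ^ 3 + c0 * y ^ 4

/-- the dehomogenised form -/
def hh (c4 c3 c1 c0 t : ℝ) : ℝ := c4 * t ^ 4 + c3 * t ^ 3 + c1 * t + c0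

lemma HH_eq (c4 c3 c1 c0 x y : ℝ) (hy : y ≠ 0) :
    HH c4 c3 c1 c0 x y = y ^ 4 * hh c4 c3 c1 c0 (x / y) := by
  unfold HH hh
  field_simp

/-- a quartic polynomial in one variable with five equal values is constant -/
lemma quartic_const {g0 g1 g2 g3 g4 v : ℝ} (S : Finset ℕ) (hS : 5 ≤ S.card)
    (h : ∀ k ∈ S, g0 + g1 * k + g2 * (k : ℝ) ^ 2 + g3 * (k : ℝ) ^ 3 + g4 * (k : ℝ) ^ 4 = v) :
    g0 = v ∧ g1 = 0 ∧ g2 = 0 ∧ g3 = 0 ∧ g4 = 0 := by
  set F : ℝ[X] := C (g0 - v) + C g1 * X + C g2 * X ^ 2 + C g3 * X ^ 3 + C g4 * X ^ 4 with hF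
  have hdeg : F.natDegree ≤ 4 := by
    rw [hF]
    compute_degree
  have hF0 : F = 0 := by
    apply Polynomial.eq_zero_of_natDegree_lt_card_of_eval_eq_zero' F
      (S.image (fun k : ℕ => (k : ℝ)))
    · intro x hx
      obtain ⟨k, hk, rfl⟩ := Finset.mem_image.1 hx
      have := h k hk
      simp only [hF, eval_add, eval_mul, eval_C, eval_X, eval_pow]
      linarith
    · rw [Finset.card_image_of_injective _ Nat.cast_injective]
      omega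
  have hev : ∀ z : ℝ, g0 - v + g1 * z + g2 * z ^ 2 + g3 * z ^ 3 + g4 * z ^ 4 = 0 := by
    intro z
    have := congrArg (Polynomial.eval z) hF0
    simpa only [hF, eval_add, eval_mul, eval_C, eval_X, eval_pow, eval_zero] using this
  have e0 := hev 0
  have e1 := hev 1
  have e2 := hev (-1)
  have e3 := hev 2
  have e4 := hev (-2)
  norm_num at e0 e1 e2 e3 e4
  refine ⟨by linarith, by linarith, by linarith, by linarith, by linarith⟩

lemma coeffs_zero {c4 c3 c1 c0 a b d1 d2 v : ℝ} (hv : v ≠ 0) (hΔ : a * d2 - b * d1 ≠ 0)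
    (S : Finset ℕ) (hS : 5 ≤ S.card)
    (h : ∀ k ∈ S, HH c4 c3 c1 c0 (a + k * d1) (b + k * d2) = v) :
    c3 = 0 ∧ c1 = 0 ∧ (c4 = 0 ∨ c0 = 0) := by
  obtain ⟨h0, h1, h2, h3, h4⟩ := quartic_const (v := v)
    (g0 := HH c4 c3 c1 c0 a b)
    (g1 := 4 * c4 * a ^ 3 * d1 + c3 * (3 * a ^ 2 * b * d1 + a ^ 3 * d2) +
      c1 * (b ^ 3 * d1 + 3 * a * b ^ 2 * d2) + 4 * c0 * b ^ 3 * d2)
    (g2 := 6 * c4 * a ^ 2 * d1 ^ 2 + c3 * (3 * a * b * d1 ^ 2 + 3 * a ^ 2 * d1 * d2) +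
      c1 * (3 * b ^ 2 * d1 * d2 + 3 * a * b * d2 ^ 2) + 6 * c0 * b ^ 2 * d2 ^ 2)
    (g3 := 4 * c4 * a * d1 ^ 3 + c3 * (b * d1 ^ 3 + 3 * a * d1 ^ 2 * d2) +
      c1 * (3 * b * d1 * d2 ^ 2 + a * d2 ^ 3) + 4 * c0 * b * d2 ^ 3)
    (g4 := HH c4 c3 c1 c0 d1 d2) S hS (by
      intro k hk
      rw [← h k hk]
      unfold HH
      ring)
  have key : ∀ x y : ℝ, (a * d2 - b * d1) ^ 4 * HH c4 c3 c1 c0 x y = v * (x * d2 - y * d1) ^ 4 := by
    intro x y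
    have e : (a * d2 - b * d1) ^ 4 * HH c4 c3 c1 c0 x y =
        HH c4 c3 c1 c0 a b * (x * d2 - y * d1) ^ 4 +
        (4 * c4 * a ^ 3 * d1 + c3 * (3 * a ^ 2 * b * d1 + a ^ 3 * d2) +
          c1 * (b ^ 3 * d1 + 3 * a * b ^ 2 * d2) + 4 * c0 * b ^ 3 * d2) *
          (x * d2 - y * d1) ^ 3 * (a * y - b * x) +
        (6 * c4 * a ^ 2 * d1 ^ 2 + c3 * (3 * a * b * d1 ^ 2 + 3 * a ^ 2 * d1 * d2) +
          c1 * (3 * b ^ 2 * d1 * d2 + 3 * a * b * d2 ^ 2) + 6 * c0 * b ^ 2 * d2 ^ 2) *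
          (x * d2 - y * d1) ^ 2 * (a * y - b * x) ^ 2 +
        (4 * c4 * a * d1 ^ 3 + c3 * (b * d1 ^ 3 + 3 * a * d1 ^ 2 * d2) +
          c1 * (3 * b * d1 * d2 ^ 2 + a * d2 ^ 3) + 4 * c0 * b * d2 ^ 3) *
          (x * d2 - y * d1) * (a * y - b * x) ^ 3 +
        HH c4 c3 c1 c0 d1 d2 * (a * y - b * x) ^ 4 := by
      unfold HH
      ring
    rw [e, h0, h1, h2, h3, h4]
    ring
  set Δ := (a * d2 - b * d1) ^ 4 with hΔd
  have hΔ4 : Δ ≠ 0 := pow_ne_zero 4 hΔ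
  have k0 := key 0 1
  have k1 := key 1 1
  have k2 := key (-1) 1
  have k3 := key 2 1
  have k4 := key (-2) 1
  unfold HH at k0 k1 k2 k3 k4
  have m22 : v * (d1 ^ 2 * d2 ^ 2) = 0 := by
    linear_combination (-(1:ℝ) / 6) * ((-(1:ℝ) / 24) * k3 + (2 / 3) * k1 - (5 / 4) * k0 +
      (2 / 3) * k2 - (1 / 24) * k4)
  have m0 : Δ * c0 = v * d1 ^ 4 := by linear_combination k0
  have m4 : Δ * c4 = v * d2 ^ 4 := by
    linear_combination (1 / 24) * k3 - (1 / 6) * k1 + (1 / 4) * k0 - (1 / 6) * k2 + (1 / 24) * k4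
  have m3 : Δ * c3 = -4 * v * (d2 ^ 3 * d1) := by
    linear_combination (1 / 12) * k3 - (1 / 6) * k1 + (1 / 6) * k2 - (1 / 12) * k4
  have m1 : Δ * c1 = -4 * v * (d2 * d1 ^ 3) := by
    linear_combination (-(1 / 12)) * k3 + (2 / 3) * k1 - (2 / 3) * k2 + (1 / 12) * k4
  have hd : d1 = 0 ∨ d2 = 0 := by
    rcases mul_eq_zero.1 m22 with h | h
    · exact absurd h hv
    · rcases mul_eq_zero.1 h with h | h
      · left; exact pow_eq_zero_iff (by norm_num) |>.1 h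
      · right; exact pow_eq_zero_iff (by norm_num) |>.1 h
  rcases hd with h | h
  · rw [h] at m0 m1 m3
    refine ⟨?_, ?_, Or.inr ?_⟩
    · exact (mul_eq_zero.1 (by rw [m3]; ring)).resolve_left hΔ4
    · exact (mul_eq_zero.1 (by rw [m1]; ring)).resolve_left hΔ4
    · exact (mul_eq_zero.1 (by rw [m0]; ring)).resolve_left hΔ4
  · rw [h] at m4 m1 m3
    refine ⟨?_, ?_, Or.inl ?_⟩
    · exact (mul_eq_zero.1 (by rw [m3]; ring)).resolve_left hΔ4
    · exact (mul_eq_zero.1 (by rw [m1]; ring)).resolve_left hΔ4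
    · exact (mul_eq_zero.1 (by rw [m4]; ring)).resolve_left hΔ4

/-- no critical point: the values are between the values at the end points -/
lemma between {c4 c3 c1 c0 x0 x1 : ℝ} (hx : x0 < x1)
    (hno : ∀ t ∈ Set.Icc x0 x1, 4 * c4 * t ^ 3 + 3 * c3 * t ^ 2 + c1 ≠ 0) :
    ∀ t ∈ Set.Icc x0 x1, min (hh c4 c3 c1 c0 x0) (hh c4 c3 c1 c0 x1) ≤ hh c4 c3 c1 c0 t ∧
      hh c4 c3 c1 c0 t ≤ max (hh c4 c3 c1 c0 x0) (hh c4 c3 c1 c0 x1) := by
  have hcont : Continuous (hh c4 c3 c1 c0) := by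
    unfold hh
    fun_prop
  have hder : ∀ t, deriv (hh c4 c3 c1 c0) t = 4 * c4 * t ^ 3 + 3 * c3 * t ^ 2 + c1 := by
    intro t
    have h1 : HasDerivAt (hh c4 c3 c1 c0)
        (c4 * ((4 : ℕ) * t ^ 3) + c3 * ((3 : ℕ) * t ^ 2) + c1 * 1) t := by
      unfold hh
      exact (((hasDerivAt_pow 4 t).const_mul c4).add ((hasDerivAt_pow 3 t).const_mul c3)).add
        ((hasDerivAt_id t).const_mul c1) |>.add_const c0
    rw [h1.deriv]
    push_cast
    ring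
  have hne : (Set.Icc x0 x1).Nonempty := ⟨x0, Set.left_mem_Icc.2 hx.le⟩
  obtain ⟨s, hs, hmin⟩ := isCompact_Icc.exists_isMinOn hne hcont.continuousOn
  obtain ⟨r, hr, hmax⟩ := isCompact_Icc.exists_isMaxOn hne hcont.continuousOn
  have hs' : s = x0 ∨ s = x1 := by
    by_contra hcon
    push Not at hcon
    have h1 : Set.Icc x0 x1 ∈ nhds s :=
      Icc_mem_nhds (lt_of_le_of_ne hs.1 (Ne.symm hcon.1)) (lt_of_le_of_ne hs.2 hcon.2)
    have h2 := (hmin.isLocalMin h1).deriv_eq_zero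
    rw [hder] at h2
    exact hno s hs h2
  have hr' : r = x0 ∨ r = x1 := by
    by_contra hcon
    push Not at hcon
    have h1 : Set.Icc x0 x1 ∈ nhds r :=
      Icc_mem_nhds (lt_of_le_of_ne hr.1 (Ne.symm hcon.1)) (lt_of_le_of_ne hr.2 hcon.2)
    have h2 := (hmax.isLocalMax h1).deriv_eq_zero
    rw [hder] at h2
    exact hno r hr h2
  intro t ht
  constructor
  · have := hmin ht
    rcases hs' with h | h
    · rw [h] at this
      exact (min_le_left _ _).trans this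
    · rw [h] at this
      exact (min_le_right _ _).trans this
  · have := hmax ht
    rcases hr' with h | h
    · rw [h] at this
      exact this.trans (le_max_left _ _)
    · rw [h] at this
      exact this.trans (le_max_right _ _)

/-- two close members of a class give a contradiction -/
lemma pairFalse {c4 c3 c1 c0 : ℝ} (hc : ¬ (c3 = 0 ∧ c1 = 0 ∧ (c4 = 0 ∨ c0 = 0)))
    (V : ℕ) (P x0 x1 : ℝ) (hP : 0 < P) (hx : x0 < x1)
    (hh0 : ∀ t ∈ Set.Icc x0 x1, 0 < hh c4 c3 c1 c0 t ∧ 16 * P ^ 4 * hh c4 c3 c1 c0 t ≤ V)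
    (a b a' b' : ℝ) (hb : 0 < b) (hb' : 0 < b') (hbP : b ≤ P) (hbP' : b' ≤ P) (hPb : P ≤ 256 * b)
    (hab : x0 ≤ a / b) (hab1 : a / b ≤ x1)
    (hint : ∀ k : ℕ, ∃ n : ℤ, HH c4 c3 c1 c0 (a + k * (a' - a)) (b + k * (b' - b)) = n)
    (hne : a * b' ≠ a' * b)
    (h1 : |a' / b' - a / b| ≤ (x1 - x0) / (1024 * (4 * V + 1)))
    (h2 : |b' - b| ≤ P / (1024 * (4 * V + 1)))
    (hdir : (a / b ≤ a' / b' ∧ a / b ≤ (x0 + x1) / 2) ∨
      (a' / b' ≤ a / b ∧ (x0 + x1) / 2 ≤ a / b)) : False := by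
  classical
  set m : ℝ := 1024 * (4 * V + 1) with hm
  have hV0 : (0 : ℝ) ≤ V := Nat.cast_nonneg V
  have hm0 : 0 < m := by rw [hm]; positivity
  have hJ : 0 < x1 - x0 := by linarith
  -- the points of the progression
  have hpt : ∀ k : ℕ, k ≤ 4 * V → 0 < HH c4 c3 c1 c0 (a + k * (a' - a)) (b + k * (b' - b)) ∧
      HH c4 c3 c1 c0 (a + k * (a' - a)) (b + k * (b' - b)) ≤ V := by
    intro k hk
    have hkr : (k : ℝ) ≤ 4 * V := by exact_mod_cast hk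
    have hk0 : (0 : ℝ) ≤ k := Nat.cast_nonneg k
    have hkm : (k : ℝ) / m ≤ 1 / 1024 := by
      rw [div_le_div_iff₀ hm0 (by norm_num)]
      rw [hm]; linarith
    have hkD : |(k : ℝ) * (b' - b)| ≤ P / 1024 := by
      rw [abs_mul, abs_of_nonneg hk0]
      calc (k : ℝ) * |b' - b| ≤ k * (P / m) := by gcongr
        _ = (k / m) * P := by ring
        _ ≤ (1 / 1024) * P := by gcongr
        _ = P / 1024 := by ring
    rw [abs_le] at hkD
    set y := b + k * (b' - b) with hy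
    set x := a + k * (a' - a) with hxd
    have hy1 : 3 * P / 1024 ≤ y := by linarith [hkD.1]
    have hy2 : y ≤ 2 * P := by linarith [hkD.2]
    have hy0 : 0 < y := by linarith [show 0 < 3 * P / 1024 by positivity]
    -- the ratio
    have hrat : x / y - a / b = (k * (b' / y)) * (a' / b' - a / b) := by
      rw [hxd]
      have hyne : b + k * (b' - b) ≠ 0 := by rw [← hy]; exact hy0.ne'
      rw [hy]
      field_simp
      ring
    have hco0 : 0 ≤ (k : ℝ) * (b' / y) := by positivity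
    have hco1 : (k : ℝ) * (b' / y) / m ≤ 1 / 2 := by
      have e1 : b' / y ≤ 1024 / 3 := by
        rw [div_le_div_iff₀ hy0 (by norm_num)]
        linarith
      calc (k : ℝ) * (b' / y) / m = (k / m) * (b' / y) := by ring
        _ ≤ (1 / 1024) * (1024 / 3) := by gcongr
        _ ≤ 1 / 2 := by norm_num
    have hco2 : (k : ℝ) * (b' / y) * ((x1 - x0) / m) ≤ (x1 - x0) / 2 := by
      calc (k : ℝ) * (b' / y) * ((x1 - x0) / m) = ((k : ℝ) * (b' / y) / m) * (x1 - x0) := by ring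
        _ ≤ (1 / 2) * (x1 - x0) := by gcongr
        _ = _ := by ring
    rw [abs_le] at h1
    have hin : x / y ∈ Set.Icc x0 x1 := by
      rcases hdir with ⟨hd1, hd2⟩ | ⟨hd1, hd2⟩
      · have e1 : 0 ≤ (k * (b' / y)) * (a' / b' - a / b) :=
          mul_nonneg hco0 (by linarith)
        have e2 : (k * (b' / y)) * (a' / b' - a / b) ≤ (k * (b' / y)) * ((x1 - x0) / m) :=
          mul_le_mul_of_nonneg_left h1.2 hco0
        constructor <;> linarith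
      · have e1 : (k * (b' / y)) * (a' / b' - a / b) ≤ 0 :=
          mul_nonpos_of_nonneg_of_nonpos hco0 (by linarith)
        have e2 : (k * (b' / y)) * (-((x1 - x0) / m)) ≤ (k * (b' / y)) * (a' / b' - a / b) :=
          mul_le_mul_of_nonneg_left h1.1 hco0
        constructor <;> linarith
    obtain ⟨g1, g2⟩ := hh0 _ hin
    rw [HH_eq c4 c3 c1 c0 x y hy0.ne']
    refine ⟨by positivity, ?_⟩
    have hy4 : y ^ 4 ≤ 16 * P ^ 4 := by
      calc y ^ 4 ≤ (2 * P) ^ 4 := pow_le_pow_left₀ hy0.le hy2 4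
        _ = 16 * P ^ 4 := by ring
    calc y ^ 4 * hh c4 c3 c1 c0 (x / y) ≤ 16 * P ^ 4 * hh c4 c3 c1 c0 (x / y) := by gcongr
      _ ≤ (V : ℝ) := g2
  choose n hn using hint
  have hmaps : ∀ k ∈ range (4 * V + 1), n k ∈ Finset.Icc (1 : ℤ) V := by
    intro k hk
    rw [Finset.mem_range] at hk
    obtain ⟨g1, g2⟩ := hpt k (by omega)
    rw [hn k] at g1 g2
    rw [Finset.mem_Icc]
    constructor
    · have : (0 : ℤ) < n k := by exact_mod_cast g1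
      omega
    · exact_mod_cast g2
  obtain ⟨v0, hv0, hcard⟩ := Finset.exists_lt_card_fiber_of_mul_lt_card_of_maps_to
    (s := range (4 * V + 1)) (t := Finset.Icc (1 : ℤ) V) (f := n) (n := 4) hmaps (by
      rw [Int.card_Icc, Finset.card_range]
      omega)
  have hv1 : (v0 : ℝ) ≠ 0 := by
    rw [Finset.mem_Icc] at hv0
    have : v0 ≠ 0 := by omega
    exact_mod_cast this
  apply hc
  apply coeffs_zero hv1 (a := a) (b := b) (d1 := a' - a) (d2 := b' - b) (by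
    intro h
    apply hne
    linarith) _ (show 5 ≤ ((range (4 * V + 1)).filter (fun x => n x = v0)).card from hcard)
  intro k hk
  rw [Finset.mem_filter] at hk
  rw [hn k, hk.2]

/-- bound for one class -/
lemma classBound {c4 c3 c1 c0 : ℝ} (hc : ¬ (c3 = 0 ∧ c1 = 0 ∧ (c4 = 0 ∨ c0 = 0)))
    (V : ℕ) (P x0 x1 : ℝ) (hP : 0 < P) (hx : x0 < x1)
    (hh0 : ∀ t ∈ Set.Icc x0 x1, 0 < hh c4 c3 c1 c0 t ∧ 16 * P ^ 4 * hh c4 c3 c1 c0 t ≤ V)
    (S : Finset (ℤ × ℤ))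
    (hS : ∀ l ∈ S, 0 < l.2 ∧ (l.2 : ℝ) ≤ P ∧ P ≤ 256 * l.2 ∧ x0 ≤ (l.1 : ℝ) / l.2 ∧
      (l.1 : ℝ) / l.2 ≤ x1)
    (hint : ∀ l ∈ S, ∀ l' ∈ S, ∀ k : ℕ, ∃ n : ℤ,
      HH c4 c3 c1 c0 ((l.1 : ℝ) + k * (l'.1 - l.1)) (l.2 + k * (l'.2 - l.2)) = n)
    (hinj : ∀ l ∈ S, ∀ l' ∈ S, l.1 * l'.2 = l'.1 * l.2 → l = l') :
    S.card ≤ (1024 * (4 * V + 1) + 1) ^ 2 := by
  classical
  by_contra hcon
  push Not at hcon
  obtain ⟨m, hm⟩ : ∃ m : ℕ, m = 1024 * (4 * V + 1) := ⟨_, rfl⟩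
  rw [← hm] at hcon
  have hm0 : (0 : ℝ) < m := by
    rw [hm]; positivity
  have hmr : (m : ℝ) = 1024 * (4 * V + 1) := by rw [hm]; push_cast; ring
  have hJ : 0 < x1 - x0 := by linarith
  let f : ℤ × ℤ → ℕ × ℕ := fun l =>
    (⌊(m : ℝ) * (((l.1 : ℝ) / l.2 - x0) / (x1 - x0))⌋₊, ⌊(m : ℝ) * ((l.2 : ℝ) / P)⌋₊)
  have hbd : ∀ l ∈ S, 0 ≤ ((l.1 : ℝ) / l.2 - x0) / (x1 - x0) ∧
      ((l.1 : ℝ) / l.2 - x0) / (x1 - x0) ≤ 1 ∧ 0 ≤ (l.2 : ℝ) / P ∧ (l.2 : ℝ) / P ≤ 1 := by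
    intro l hl
    obtain ⟨h1, h2, h3, h4, h5⟩ := hS l hl
    have h1' : (0 : ℝ) < l.2 := by exact_mod_cast h1
    refine ⟨div_nonneg (by linarith) hJ.le, ?_, by positivity, ?_⟩
    · rw [div_le_one hJ]; linarith
    · rw [div_le_one hP]; exact h2
  have hfl : ∀ x : ℝ, 0 ≤ x → x ≤ 1 → ⌊(m : ℝ) * x⌋₊ ≤ m := by
    intro x hx0 hx1
    have : (m : ℝ) * x ≤ m := by nlinarith
    exact Nat.floor_le_of_le this
  obtain ⟨l, hl, l', hl', hne, hff⟩ := Finset.exists_ne_map_eq_of_card_lt_of_maps_to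
    (s := S) (t := range (m + 1) ×ˢ range (m + 1)) (f := f) (by
      rw [Finset.card_product, Finset.card_range, ← pow_two]
      exact hcon) (by
      intro l hl
      obtain ⟨h1, h2, h3, h4⟩ := hbd l hl
      rw [Finset.mem_coe, Finset.mem_product, Finset.mem_range, Finset.mem_range]
      exact ⟨Nat.lt_succ_of_le (hfl _ h1 h2), Nat.lt_succ_of_le (hfl _ h3 h4)⟩)
  have hfl2 : ∀ x y : ℝ, 0 ≤ x → 0 ≤ y → ⌊(m : ℝ) * x⌋₊ = ⌊(m : ℝ) * y⌋₊ → |y - x| ≤ 1 / m := by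
    intro x y hx0 hy0 h
    have e1 := Nat.floor_le (show 0 ≤ (m : ℝ) * x by positivity)
    have e2 := Nat.lt_floor_add_one ((m : ℝ) * x)
    have e3 := Nat.floor_le (show 0 ≤ (m : ℝ) * y by positivity)
    have e4 := Nat.lt_floor_add_one ((m : ℝ) * y)
    rw [h] at e1 e2
    rw [abs_le]
    constructor
    · rw [neg_le_iff_add_nonneg, ← sub_nonneg]
      have : 0 ≤ (m * (y - x) + 1) / m := div_nonneg (by nlinarith) hm0.le
      have e : (m * (y - x) + 1) / m = y - x + 1 / m := by field_simp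
      rw [e] at this
      linarith
    · rw [le_div_iff₀ hm0]
      nlinarith
  have hff1 : ⌊(m : ℝ) * (((l.1 : ℝ) / l.2 - x0) / (x1 - x0))⌋₊ =
    ⌊(m : ℝ) * (((l'.1 : ℝ) / l'.2 - x0) / (x1 - x0))⌋₊ := congrArg Prod.fst hff
  have hff2 : ⌊(m : ℝ) * ((l.2 : ℝ) / P)⌋₊ = ⌊(m : ℝ) * ((l'.2 : ℝ) / P)⌋₊ :=
    congrArg Prod.snd hff
  have d1 := hfl2 _ _ (hbd l hl).1 (hbd l' hl').1 hff1
  have d2 := hfl2 _ _ (hbd l hl).2.2.1 (hbd l' hl').2.2.1 hff2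
  have D1 : |(l'.1 : ℝ) / l'.2 - (l.1 : ℝ) / l.2| ≤ (x1 - x0) / (1024 * (4 * V + 1)) := by
    have e : ((l'.1 : ℝ) / l'.2 - x0) / (x1 - x0) - ((l.1 : ℝ) / l.2 - x0) / (x1 - x0) =
        ((l'.1 : ℝ) / l'.2 - (l.1 : ℝ) / l.2) / (x1 - x0) := by ring
    rw [e, abs_div, abs_of_pos hJ, div_le_iff₀ hJ] at d1
    rw [← hmr]
    calc _ ≤ 1 / (m : ℝ) * (x1 - x0) := d1
      _ = _ := by ring
  have D2 : |(l'.2 : ℝ) - l.2| ≤ P / (1024 * (4 * V + 1)) := by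
    have e : (l'.2 : ℝ) / P - (l.2 : ℝ) / P = ((l'.2 : ℝ) - l.2) / P := by ring
    rw [e, abs_div, abs_of_pos hP, div_le_iff₀ hP] at d2
    rw [← hmr]
    calc _ ≤ 1 / (m : ℝ) * P := d2
      _ = _ := by ring
  obtain ⟨h1, h2, h3, h4, h5⟩ := hS l hl
  obtain ⟨h1', h2', h3', h4', h5'⟩ := hS l' hl'
  have r1 : (0 : ℝ) < l.2 := by exact_mod_cast h1
  have r1' : (0 : ℝ) < l'.2 := by exact_mod_cast h1'
  have hneq : (l.1 : ℝ) * l'.2 ≠ l'.1 * l.2 := by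
    intro h
    apply hne
    apply hinj l hl l' hl'
    exact_mod_cast h
  have D1' : |(l.1 : ℝ) / l.2 - (l'.1 : ℝ) / l'.2| ≤ (x1 - x0) / (1024 * (4 * V + 1)) := by
    rw [abs_sub_comm]; exact D1
  have D2' : |(l.2 : ℝ) - l'.2| ≤ P / (1024 * (4 * V + 1)) := by
    rw [abs_sub_comm]; exact D2
  have start1 := pairFalse hc V P x0 x1 hP hx hh0 l.1 l.2 l'.1 l'.2 r1 r1' h2 h2' h3 h4 h5
    (fun k => hint l hl l' hl' k) hneq D1 D2
  have start2 := pairFalse hc V P x0 x1 hP hx hh0 l'.1 l'.2 l.1 l.2 r1' r1 h2' h2 h3' h4' h5'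
    (fun k => hint l' hl' l hl k) hneq.symm D1' D2'
  rcases le_total ((l.1 : ℝ) / l.2) ((l'.1 : ℝ) / l'.2) with h | h
  · rcases le_total ((l.1 : ℝ) / l.2) ((x0 + x1) / 2) with h' | h'
    · exact start1 (Or.inl ⟨h, h'⟩)
    · exact start2 (Or.inr ⟨h, h'.trans h⟩)
  · rcases le_total ((l'.1 : ℝ) / l'.2) ((x0 + x1) / 2) with h' | h'
    · exact start2 (Or.inl ⟨h, h'⟩)
    · exact start1 (Or.inr ⟨h, h'.trans h⟩)

lemma ratio_inj {a b a' b' : ℤ} (ha : 0 < a) (hb : 0 < b) (ha' : 0 < a') (hb' : 0 < b')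
    (h : IsCoprime a b) (h' : IsCoprime a' b') (e : a * b' = a' * b) : a = a' ∧ b = b' := by
  have h1 : b ∣ b' := by
    have : b ∣ a * b' := ⟨a', by rw [e]; ring⟩
    exact h.symm.dvd_of_dvd_mul_left this
  have h2 : b' ∣ b := by
    have : b' ∣ a' * b := ⟨a, by rw [← e]; ring⟩
    exact h'.symm.dvd_of_dvd_mul_left this
  have hbb : b = b' := le_antisymm (Int.le_of_dvd hb' h1) (Int.le_of_dvd hb h2)
  refine ⟨?_, hbb⟩
  rw [← hbb] at e
  exact mul_right_cancel₀ hb.ne' e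

/-- FX-RUN -/
theorem stmtRun : StmtRun := by
  classical
  intro u hu
  obtain ⟨V, hV⟩ : ∃ V : ℕ, V = 16 * 256 ^ 4 * u.toNat := ⟨_, rfl⟩
  have hVr : (V : ℝ) = 16 * 256 ^ 4 * (u : ℝ) := by
    rw [hV]
    push_cast
    have : ((u.toNat : ℤ) : ℝ) = (u : ℝ) := by rw [Int.toNat_of_nonneg (by omega)]
    rw [← this]
    push_cast
    ring
  refine ⟨(1024 * (4 * V + 1) + 1) ^ 2 * 16, ?_⟩
  intro M N α β γ δ g hM hN hg hdet T hT hcomp
  have hgr : (g : ℝ) ≠ 0 := by exact_mod_cast hg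
  have hMr : (M : ℝ) ≠ 0 := by exact_mod_cast (by omega : M ≠ 0)
  have hNr : (N : ℝ) ≠ 0 := by exact_mod_cast (by omega : N ≠ 0)
  have hur : (0 : ℝ) < u := by exact_mod_cast (by omega : 0 < u)
  obtain ⟨c4, hc4⟩ : ∃ c : ℝ, c = M * β / g := ⟨_, rfl⟩
  obtain ⟨c3, hc3⟩ : ∃ c : ℝ, c = M * δ / g := ⟨_, rfl⟩
  obtain ⟨c1, hc1⟩ : ∃ c : ℝ, c = N * α / g := ⟨_, rfl⟩
  obtain ⟨c0, hc0⟩ : ∃ c : ℝ, c = N * γ / g := ⟨_, rfl⟩
  have hz : ∀ (A x : ℤ), (A : ℝ) ≠ 0 → (A : ℝ) * x / g = 0 → x = 0 := by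
    intro A x hA h
    rw [div_eq_zero_iff] at h
    rcases h with h | h
    · rcases mul_eq_zero.1 h with h | h
      · exact absurd h hA
      · exact_mod_cast h
    · exact absurd h hgr
  have hc : ¬ (c3 = 0 ∧ c1 = 0 ∧ (c4 = 0 ∨ c0 = 0)) := by
    rintro ⟨h3, h1, h⟩
    rw [hc3] at h3
    rw [hc1] at h1
    have e3 := hz M δ hMr h3
    have e1 := hz N α hNr h1
    apply hdet
    rcases h with h | h
    · rw [hc4] at h
      have e4 := hz M β hMr h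
      rw [e3, e4]; ring
    · rw [hc0] at h
      have e0 := hz N γ hNr h
      rw [e3, e0]; ring
  -- the values on the lines
  have hline : ∀ t ∈ T, ∀ s ∈ T, ∀ k : ℝ,
      HH c4 c3 c1 c0 ((t.p : ℝ) + k * (s.p - t.p)) (t.p' + k * (s.p' - t.p')) =
      N * (t.q' + k * (s.q' - t.q')) * (t.p' + k * (s.p' - t.p')) ^ 3 -
        M * (t.q + k * (s.q - t.q)) * (t.p + k * (s.p - t.p)) ^ 3 := by
    intro t ht s hs k
    obtain ⟨_, _, _, _, f1, f2⟩ := hT t ht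
    obtain ⟨_, _, _, _, f3, f4⟩ := hT s hs
    have r1 : (α : ℝ) * t.p + γ * t.p' = g * t.q' := by exact_mod_cast f1
    have r2 : (β : ℝ) * t.p + δ * t.p' = -(g * t.q) := by exact_mod_cast f2
    have r3 : (α : ℝ) * s.p + γ * s.p' = g * s.q' := by exact_mod_cast f3
    have r4 : (β : ℝ) * s.p + δ * s.p' = -(g * s.q) := by exact_mod_cast f4
    have q1 : (t.q' : ℝ) = (α * t.p + γ * t.p') / g := by field_simp; linarith
    have q2 : (t.q : ℝ) = -(β * t.p + δ * t.p') / g := by field_simp; linarith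
    have q3 : (s.q' : ℝ) = (α * s.p + γ * s.p') / g := by field_simp; linarith
    have q4 : (s.q : ℝ) = -(β * s.p + δ * s.p') / g := by field_simp; linarith
    unfold HH
    rw [q1, q2, q3, q4, hc4, hc3, hc1, hc0]
    field_simp
    ring
  have hval : ∀ t ∈ T, HH c4 c3 c1 c0 t.p t.p' = u := by
    intro t ht
    have h1 := hline t ht t ht 0
    obtain ⟨_, _, _, f, _, _⟩ := hT t ht
    have r : (M : ℝ) * t.q * t.p ^ 3 + u = N * t.q' * t.p' ^ 3 := by exact_mod_cast f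
    simp only [zero_mul, add_zero] at h1
    rw [h1]
    linarith
  have hinjT : Set.InjOn (fun t : Quad => (t.p, t.p')) (T : Set Quad) := by
    intro t ht s hs hts
    have e1 : t.p = s.p := congrArg Prod.fst hts
    have e2 : t.p' = s.p' := congrArg Prod.snd hts
    obtain ⟨_, _, _, _, f1, f2⟩ := hT t ht
    obtain ⟨_, _, _, _, f3, f4⟩ := hT s hs
    rw [e1, e2] at f1 f2
    have e3 : t.q' = s.q' := mul_left_cancel₀ hg (f1.symm.trans f3)
    have e4 : t.q = s.q := by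
      have : g * t.q = g * s.q := by linarith
      exact mul_left_cancel₀ hg this
    exact Quad.ext e1 e2 e4 e3
  rcases T.eq_empty_or_nonempty with hTe | hTne
  · rw [hTe]; simp
  obtain ⟨t0, ht0, hmax⟩ := Finset.exists_max_image T (fun t => t.p') hTne
  obtain ⟨P, hPd⟩ : ∃ P : ℝ, P = t0.p' := ⟨_, rfl⟩
  have hP : 0 < P := by
    rw [hPd]; exact_mod_cast (hT t0 ht0).2.1
  -- the pairs
  obtain ⟨S, hSd⟩ : ∃ S : Finset (ℤ × ℤ), S = T.image (fun t => (t.p, t.p')) := ⟨_, rfl⟩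
  have hcard : T.card = S.card := by
    rw [hSd, Finset.card_image_of_injOn hinjT]
  have hSmem : ∀ l ∈ S, ∃ t ∈ T, l = (t.p, t.p') := by
    intro l hl
    rw [hSd] at hl
    obtain ⟨t, ht, e⟩ := Finset.mem_image.1 hl
    exact ⟨t, ht, e.symm⟩
  have hSprop : ∀ l ∈ S, 0 < l.2 ∧ (l.2 : ℝ) ≤ P ∧ P ≤ 256 * l.2 ∧
      HH c4 c3 c1 c0 l.1 l.2 = u := by
    intro l hl
    obtain ⟨t, ht, rfl⟩ := hSmem l hl
    refine ⟨(hT t ht).2.1, ?_, ?_, hval t ht⟩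
    · rw [hPd]; exact_mod_cast hmax t ht
    · rw [hPd]; exact_mod_cast hcomp t0 ht0 t ht
  have hSinj : ∀ l ∈ S, ∀ l' ∈ S, l.1 * l'.2 = l'.1 * l.2 → l = l' := by
    intro l hl l' hl' e
    obtain ⟨t, ht, rfl⟩ := hSmem l hl
    obtain ⟨s, hs, rfl⟩ := hSmem l' hl'
    obtain ⟨a1, a2, a3, _⟩ := hT t ht
    obtain ⟨b1, b2, b3, _⟩ := hT s hs
    obtain ⟨e1, e2⟩ := ratio_inj a1 a2 b1 b2 a3 b3 e
    exact Prod.ext e1 e2
  have hSint : ∀ l ∈ S, ∀ l' ∈ S, ∀ k : ℕ, ∃ n : ℤ,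
      HH c4 c3 c1 c0 ((l.1 : ℝ) + k * (l'.1 - l.1)) (l.2 + k * (l'.2 - l.2)) = n := by
    intro l hl l' hl' k
    obtain ⟨t, ht, rfl⟩ := hSmem l hl
    obtain ⟨s, hs, rfl⟩ := hSmem l' hl'
    refine ⟨N * (t.q' + k * (s.q' - t.q')) * (t.p' + k * (s.p' - t.p')) ^ 3 -
        M * (t.q + k * (s.q - t.q)) * (t.p + k * (s.p - t.p)) ^ 3, ?_⟩
    have := hline t ht s hs k
    rw [this]
    push_cast
    ring
  -- the critical points
  obtain ⟨Q, hQ⟩ : ∃ Q : ℝ[X], Q = C (4 * c4) * X ^ 3 + C (3 * c3) * X ^ 2 + C c1 := ⟨_, rfl⟩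
  have hQev : ∀ t, Q.eval t = 4 * c4 * t ^ 3 + 3 * c3 * t ^ 2 + c1 := by
    intro t
    rw [hQ]
    simp only [eval_add, eval_mul, eval_C, eval_X, eval_pow]
  have hQdeg : Q.natDegree ≤ 3 := by
    rw [hQ]
    compute_degree
  have hQ0 : Q ≠ 0 := by
    intro h
    have hev : ∀ t : ℝ, 4 * c4 * t ^ 3 + 3 * c3 * t ^ 2 + c1 = 0 := by
      intro t
      rw [← hQev, h, eval_zero]
    have e0 := hev 0
    have e1 := hev 1
    have e2 := hev (-1)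
    norm_num at e0 e1 e2
    apply hc
    refine ⟨by linarith, e0, Or.inl (by linarith)⟩
  obtain ⟨R, hR⟩ : ∃ R : Finset ℝ, R = Q.roots.toFinset := ⟨_, rfl⟩
  have hRcard : R.card ≤ 3 := by
    rw [hR]
    exact (Multiset.toFinset_card_le _).trans ((Polynomial.card_roots' Q).trans hQdeg)
  have hRmem : ∀ t : ℝ, 4 * c4 * t ^ 3 + 3 * c3 * t ^ 2 + c1 = 0 → t ∈ R := by
    intro t ht
    rw [hR, Multiset.mem_toFinset, Polynomial.mem_roots hQ0, IsRoot.def, hQev]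
    exact ht
  let κ : ℤ × ℤ → ℕ × ℕ := fun l =>
    ((R.filter (fun r => r < (l.1 : ℝ) / l.2)).card, (R.filter (fun r => r ≤ (l.1 : ℝ) / l.2)).card)
  have hmaps : ∀ l ∈ S, κ l ∈ range 4 ×ˢ range 4 := by
    intro l _
    rw [Finset.mem_product, Finset.mem_range, Finset.mem_range]
    exact ⟨Nat.lt_succ_of_le ((Finset.card_filter_le _ _).trans hRcard),
      Nat.lt_succ_of_le ((Finset.card_filter_le _ _).trans hRcard)⟩
  rw [hcard]
  have hfin := Finset.card_le_mul_card_image_of_maps_to (s := S) (t := range 4 ×ˢ range 4)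
    (f := κ) hmaps ((1024 * (4 * V + 1) + 1) ^ 2) ?_
  · rw [Finset.card_product, Finset.card_range] at hfin
    exact hfin
  intro col _
  obtain ⟨S', hS'⟩ : ∃ S' : Finset (ℤ × ℤ), S' = S.filter (fun l => κ l = col) := ⟨_, rfl⟩
  rw [← hS']
  have hS'mem : ∀ l ∈ S', l ∈ S ∧ κ l = col := by
    intro l hl
    rw [hS'] at hl
    exact Finset.mem_filter.1 hl
  rcases Nat.lt_or_ge 1 S'.card with hlt | hle
  swap
  · exact hle.trans (Nat.one_le_pow _ _ (by omega))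
  obtain ⟨la, hla, lb, hlb, hlab⟩ := Finset.one_lt_card.1 hlt
  have hne' : S'.Nonempty := ⟨la, hla⟩
  obtain ⟨l0, hl0, hmin⟩ := Finset.exists_min_image S' (fun l => (l.1 : ℝ) / l.2) hne'
  obtain ⟨l1, hl1, hmax1⟩ := Finset.exists_max_image S' (fun l => (l.1 : ℝ) / l.2) hne'
  have hrinj : ∀ l ∈ S, ∀ l' ∈ S, (l.1 : ℝ) / l.2 = (l'.1 : ℝ) / l'.2 → l = l' := by
    intro l hl l' hl' e
    have p1 : (0 : ℝ) < l.2 := by exact_mod_cast (hSprop l hl).1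
    have p2 : (0 : ℝ) < l'.2 := by exact_mod_cast (hSprop l' hl').1
    rw [div_eq_div_iff p1.ne' p2.ne'] at e
    apply hSinj l hl l' hl'
    exact_mod_cast e
  have hx01 : (l0.1 : ℝ) / l0.2 < (l1.1 : ℝ) / l1.2 := by
    by_contra hcon
    push Not at hcon
    apply hlab
    apply hrinj la (hS'mem la hla).1 lb (hS'mem lb hlb).1
    have a1 := hmin la hla
    have a2 := hmax1 la hla
    have b1 := hmin lb hlb
    have b2 := hmax1 lb hlb
    linarith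
  have hno : ∀ t ∈ Set.Icc ((l0.1 : ℝ) / l0.2) ((l1.1 : ℝ) / l1.2),
      4 * c4 * t ^ 3 + 3 * c3 * t ^ 2 + c1 ≠ 0 := by
    intro t ht h0
    have htR := hRmem t h0
    have hk0 := (hS'mem l0 hl0).2
    have hk1 := (hS'mem l1 hl1).2
    have hkk : κ l0 = κ l1 := hk0.trans hk1.symm
    have e1 : (R.filter (fun r => r < (l0.1 : ℝ) / l0.2)).card =
      (R.filter (fun r => r < (l1.1 : ℝ) / l1.2)).card := congrArg Prod.fst hkk
    have e2 : (R.filter (fun r => r ≤ (l0.1 : ℝ) / l0.2)).card =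
      (R.filter (fun r => r ≤ (l1.1 : ℝ) / l1.2)).card := congrArg Prod.snd hkk
    have s1 : R.filter (fun r => r < (l0.1 : ℝ) / l0.2) ⊆ R.filter (fun r => r < (l1.1 : ℝ) / l1.2) := by
      intro r hr
      rw [Finset.mem_filter] at hr ⊢
      exact ⟨hr.1, hr.2.trans hx01⟩
    have s2 : R.filter (fun r => r ≤ (l0.1 : ℝ) / l0.2) ⊆ R.filter (fun r => r ≤ (l1.1 : ℝ) / l1.2) := by
      intro r hr
      rw [Finset.mem_filter] at hr ⊢
      exact ⟨hr.1, hr.2.trans hx01.le⟩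
    have q1 := Finset.eq_of_subset_of_card_le s1 e1.ge
    have q2 := Finset.eq_of_subset_of_card_le s2 e2.ge
    rcases lt_or_eq_of_le ht.2 with h | h
    · have : t ∈ R.filter (fun r => r < (l1.1 : ℝ) / l1.2) := Finset.mem_filter.2 ⟨htR, h⟩
      rw [← q1, Finset.mem_filter] at this
      exact absurd this.2 (not_lt.2 ht.1)
    · have : t ∈ R.filter (fun r => r ≤ (l1.1 : ℝ) / l1.2) := Finset.mem_filter.2 ⟨htR, h.le⟩
      rw [← q2, Finset.mem_filter] at this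
      rw [h] at this
      exact absurd this.2 (not_le.2 hx01)
  have hbet := between (c0 := c0) hx01 hno
  have hend : ∀ l ∈ S, 0 < hh c4 c3 c1 c0 ((l.1 : ℝ) / l.2) ∧
      16 * P ^ 4 * hh c4 c3 c1 c0 ((l.1 : ℝ) / l.2) ≤ V := by
    intro l hl
    obtain ⟨p1, p2, p3, p4⟩ := hSprop l hl
    have p1' : (0 : ℝ) < l.2 := by exact_mod_cast p1
    rw [HH_eq _ _ _ _ _ _ p1'.ne'] at p4
    have p5 : 0 < (l.2 : ℝ) ^ 4 := by positivity
    have p6 : 0 < hh c4 c3 c1 c0 ((l.1 : ℝ) / l.2) := by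
      by_contra hcon
      push Not at hcon
      have := mul_nonpos_of_nonneg_of_nonpos p5.le hcon
      linarith
    refine ⟨p6, ?_⟩
    have p7 : P ^ 4 ≤ 256 ^ 4 * (l.2 : ℝ) ^ 4 := by
      calc P ^ 4 ≤ (256 * (l.2 : ℝ)) ^ 4 := pow_le_pow_left₀ hP.le p3 4
        _ = 256 ^ 4 * (l.2 : ℝ) ^ 4 := by ring
    calc 16 * P ^ 4 * hh c4 c3 c1 c0 ((l.1 : ℝ) / l.2)
        ≤ 16 * (256 ^ 4 * (l.2 : ℝ) ^ 4) * hh c4 c3 c1 c0 ((l.1 : ℝ) / l.2) := by gcongr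
      _ = 16 * 256 ^ 4 * ((l.2 : ℝ) ^ 4 * hh c4 c3 c1 c0 ((l.1 : ℝ) / l.2)) := by ring
      _ = 16 * 256 ^ 4 * (u : ℝ) := by rw [p4]
      _ = (V : ℝ) := hVr.symm
      _ ≤ (V : ℝ) := le_refl _
  obtain ⟨f0, f0'⟩ := hend l0 (hS'mem l0 hl0).1
  obtain ⟨f1, f1'⟩ := hend l1 (hS'mem l1 hl1).1
  apply classBound hc V P ((l0.1 : ℝ) / l0.2) ((l1.1 : ℝ) / l1.2) hP hx01
  · intro t ht
    obtain ⟨g1, g2⟩ := hbet t ht
    constructor
    · exact lt_of_lt_of_le (lt_min f0 f1) g1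
    · rcases le_total (hh c4 c3 c1 c0 ((l0.1 : ℝ) / l0.2)) (hh c4 c3 c1 c0 ((l1.1 : ℝ) / l1.2))
        with h | h
      · rw [max_eq_right h] at g2
        refine le_trans ?_ f1'
        gcongr
      · rw [max_eq_left h] at g2
        refine le_trans ?_ f0'
        gcongr
  · intro l hl
    obtain ⟨p1, p2, p3, _⟩ := hSprop l (hS'mem l hl).1
    exact ⟨p1, p2, p3, hmin l hl, hmax1 l hl⟩
  · intro l hl l' hl' k
    exact hSint l (hS'mem l hl).1 l' (hS'mem l' hl').1 k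
  · intro l hl l' hl' e
    exact hSinj l (hS'mem l hl).1 l' (hS'mem l' hl').1 e

end Pool.Agent.W74.FX
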